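import Pool.Agent.Helper88.PA.Set
import Pool.Agent.Helper88.PP.MainA

/-! # Almost all integers are close to a large gap between primes: `L` fixed -/

set_option autoImplicit false

open Finset Filter Topology

open scoped Classical

namespace Pool.Agent.Helper88.PA

/-- a prime-free interval of length `l` after `t` gives a gap of length `≥ l` -/
theorem gap_of_free (m t l : ℕ) (hm : m ≤ t) (ht : 2 ≤ t)
    (h : ∀ p : ℕ, p.Prime → t < p → t + l < p) :
    ∃ n : ℕ, m < Nat.nth Nat.Prime (n + 1) ∧ Nat.nth Nat.Prime n ≤ t ∧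
      (l : ℝ) ≤ (Nat.nth Nat.Prime (n + 1) : ℝ) - Nat.nth Nat.Prime n - 1 := by
  have hc : 1 ≤ Nat.count Nat.Prime (t + 1) := by
    have h1 : Nat.count Nat.Prime 3 ≤ Nat.count Nat.Prime (t + 1) :=
      Nat.count_monotone _ (by omega)
    have h2 : Nat.count Nat.Prime 3 = 1 := by decide
    omega
  obtain ⟨n, hn⟩ : ∃ n, Nat.count Nat.Prime (t + 1) = n + 1 := ⟨_, (Nat.sub_add_cancel hc).symm⟩
  have h1 : Nat.nth Nat.Prime n < t + 1 := by
    apply Nat.nth_lt_of_lt_count
    omega
  have h2 : t + 1 ≤ Nat.nth Nat.Prime (n + 1) := by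
    rw [← hn]
    exact Nat.le_nth_count Nat.infinite_setOf_prime _
  have h3 : t + l < Nat.nth Nat.Prime (n + 1) := h _ (Nat.prime_nth_prime _) (by omega)
  refine ⟨n, by omega, by omega, ?_⟩
  have h4 : Nat.nth Nat.Prime n + l + 1 ≤ Nat.nth Nat.Prime (n + 1) := by omega
  have h5 : ((Nat.nth Nat.Prime n + l + 1 : ℕ) : ℝ) ≤ (Nat.nth Nat.Prime (n + 1) : ℝ) := by
    exact_mod_cast h4
  push_cast at h5
  linarith

theorem ae (h : Pool.Agent.Helper88.PP.StmtMO) : ∀ L ε : ℝ, 0 < ε → ∃ T X : ℝ, ∀ x : ℝ, X ≤ x →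
    ({m : ℕ | (m : ℝ) ≤ x ∧ ¬ ∃ n : ℕ, m < Nat.nth Nat.Prime (n + 1) ∧
      (Nat.nth Nat.Prime n : ℝ) ≤ m + T * Real.log x ∧
      L * Real.log x ≤ (Nat.nth Nat.Prime (n + 1) : ℝ) - Nat.nth Nat.Prime n - 1}.ncard : ℝ)
      ≤ ε * x := by
  intro L ε hε
  obtain ⟨I, hI⟩ : ∃ I : ℕ, ((1 : ℝ) / 2) ^ I < ε / 4 :=
    exists_pow_lt_of_lt_one (by positivity) (by norm_num)
  set lam : ℝ := 2 * max L 1 with hlam
  have hlam1 : 1 ≤ lam := by
    have := le_max_right L 1
    linarith
  have hlamL : 2 * L ≤ lam := by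
    have := le_max_left L 1
    linarith
  obtain ⟨T, hT⟩ := h lam hlam1 (ε / 8) (by positivity)
  obtain ⟨x0, hx0⟩ := eventually_atTop.1 hT
  have key : ∀ᶠ x : ℝ in atTop,
      ({m : ℕ | (m : ℝ) ≤ x ∧ ¬ ∃ n : ℕ, m < Nat.nth Nat.Prime (n + 1) ∧
      (Nat.nth Nat.Prime n : ℝ) ≤ m + (T * (lam + 1)) * Real.log x ∧
      L * Real.log x ≤ (Nat.nth Nat.Prime (n + 1) : ℝ) - Nat.nth Nat.Prime n - 1}.ncard : ℝ)
      ≤ ε * x := by
    filter_upwards [tend_div I (max x0 4), log_ge_half I, eventually_ge_atTop (1 : ℝ),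
      eventually_ge_atTop (4 / ε), Real.tendsto_log_atTop.eventually_ge_atTop 1]
      with x h1 h2 hx1 hxε hl
    refine (coverSet' _ x (by linarith) I (ε / 8) (by positivity) ?_).trans ?_
    · intro i hi
      have h3 := h1 i hi.le
      have h4 := h2 i hi.le
      have h5 := hx0 _ ((le_max_left _ _).trans h3)
      have h6 := log_le x hx1 i
      refine ⟨_, ?_, h5⟩
      have h3' : 4 ≤ ⌊x⌋₊ / 2 ^ i := (le_max_right _ _).trans h3
      generalize hN : ⌊x⌋₊ / 2 ^ i = N at *
      intro m hm1 hm2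
      refine Finset.mem_filter.2 ⟨hm1, ?_⟩
      rw [mem_Ioc] at hm1
      intro t ht
      by_contra hcon
      apply hm2
      push Not at hcon
      obtain ⟨n, hn1, hn2, hn3⟩ := gap_of_free m (m + t) ⌈lam * Real.log N⌉₊ (by omega) (by omega)
        (fun p hp hpt => hcon p hp hpt)
      refine ⟨n, hn1, ?_, ?_⟩
      · have h7 : (t : ℝ) ≤ T * (lam * Real.log x + 1) := by
          have h8 : (t : ℝ) ≤ T * (⌈lam * Real.log N⌉₊ : ℝ) := by exact_mod_cast ht
          refine h8.trans ?_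
          apply mul_le_mul_of_nonneg_left _ (Nat.cast_nonneg _)
          have h9 : 0 ≤ lam * Real.log N := by
            apply mul_nonneg (by linarith)
            linarith
          refine (Nat.ceil_lt_add_one h9).le.trans ?_
          have : lam * Real.log N ≤ lam * Real.log x :=
            mul_le_mul_of_nonneg_left h6 (by linarith)
          linarith
        have h10 : (Nat.nth Nat.Prime n : ℝ) ≤ m + t := by exact_mod_cast hn2
        have h11 : (T : ℝ) * (lam * Real.log x + 1) ≤ T * (lam + 1) * Real.log x := by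
          have : (0 : ℝ) ≤ T := Nat.cast_nonneg _
          nlinarith
        linarith
      · refine le_trans ?_ hn3
        refine le_trans ?_ (Nat.le_ceil _)
        have h12 : lam * (Real.log x / 2) ≤ lam * Real.log N :=
          mul_le_mul_of_nonneg_left h4 (by linarith)
        nlinarith
    · have h13 : x / 2 ^ I ≤ ε / 4 * x := by
        have : x / 2 ^ I = (1 / 2) ^ I * x := by
          rw [one_div, inv_pow]; ring
        rw [this]
        exact mul_le_mul_of_nonneg_right hI.le (by linarith)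
      have h14 : 1 ≤ ε / 4 * x := by
        rw [div_le_iff₀ hε] at hxε
        linarith
      nlinarith
  obtain ⟨X, hX⟩ := eventually_atTop.1 key
  exact ⟨T * (lam + 1), X, hX⟩

end Pool.Agent.Helper88.PA
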