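import Pool.Agent.Helper88.PA.AE
import Pool.Agent.Helper88.GM.Goals

/-! # Almost all integers are close to a large gap between primes: `L` growing -/

set_option autoImplicit false

open Finset Filter Topology

open scoped Classical

namespace Pool.Agent.Helper88.PA

theorem aeg (h : Pool.Agent.Helper88.GM.StmtMO) : ∀ ε : ℝ, 0 < ε → ∃ c C : ℝ, 0 < c ∧ ∃ X : ℝ,
    ∀ x : ℝ, X ≤ x → ∀ L : ℝ, Real.log (Real.log (Real.log x)) ≤ L →
    L ≤ c * Real.log (Real.log x) →
    ({m : ℕ | (m : ℝ) ≤ x ∧ ¬ ∃ n : ℕ, m < Nat.nth Nat.Prime (n + 1) ∧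
      (Nat.nth Nat.Prime n : ℝ) ≤ m + Real.exp (Real.exp (C * L)) ∧
      L * Real.log x ≤ (Nat.nth Nat.Prime (n + 1) : ℝ) - Nat.nth Nat.Prime n - 1}.ncard : ℝ)
      ≤ ε * x := by
  intro ε hε
  obtain ⟨I, hI⟩ : ∃ I : ℕ, ((1 : ℝ) / 2) ^ I < ε / 4 :=
    exists_pow_lt_of_lt_one (by positivity) (by norm_num)
  obtain ⟨C, hC, x0, hx0⟩ := h (ε / 8) (by positivity)
  refine ⟨1 / (4 * C), 2 * C, by positivity, ?_⟩
  have key : ∀ᶠ x : ℝ in atTop, ∀ L : ℝ, Real.log (Real.log (Real.log x)) ≤ L →
      L ≤ 1 / (4 * C) * Real.log (Real.log x) →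
      ({m : ℕ | (m : ℝ) ≤ x ∧ ¬ ∃ n : ℕ, m < Nat.nth Nat.Prime (n + 1) ∧
      (Nat.nth Nat.Prime n : ℝ) ≤ m + Real.exp (Real.exp (2 * C * L)) ∧
      L * Real.log x ≤ (Nat.nth Nat.Prime (n + 1) : ℝ) - Nat.nth Nat.Prime n - 1}.ncard : ℝ)
      ≤ ε * x := by
    filter_upwards [tend_div I (max x0 4), log_ge_half I, eventually_ge_atTop (1 : ℝ),
      eventually_ge_atTop (4 / ε), Real.tendsto_log_atTop.eventually_ge_atTop 4,
      (Real.tendsto_log_atTop.comp Real.tendsto_log_atTop).eventually_ge_atTop
        (max 1 (2 * Real.log 2))]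
      with x h1 h2 hx1 hxε hl hll L hL1 hL2
    have hll1 : 1 ≤ Real.log (Real.log x) := (le_max_left _ _).trans hll
    have hll2 : 2 * Real.log 2 ≤ Real.log (Real.log x) := (le_max_right _ _).trans hll
    have hL0 : 0 ≤ L := le_trans (Real.log_nonneg hll1) hL1
    refine (coverSet' _ x (by linarith) I (ε / 8) (by positivity) ?_).trans ?_
    · intro i hi
      have h3 := h1 i hi.le
      have h4 := h2 i hi.le
      have h6 := log_le x hx1 i
      have h3' : 4 ≤ ⌊x⌋₊ / 2 ^ i := (le_max_right _ _).trans h3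
      have h3x := (le_max_left _ _).trans h3
      generalize hN : ⌊x⌋₊ / 2 ^ i = N at *
      have hlN2 : 2 ≤ Real.log N := by linarith
      have hllN : Real.log (Real.log N) ≤ Real.log (Real.log x) :=
        Real.log_le_log (by linarith) h6
      have hllN2 : Real.log (Real.log x) / 2 ≤ Real.log (Real.log N) := by
        have h7 : Real.log (Real.log x / 2) ≤ Real.log (Real.log N) :=
          Real.log_le_log (by linarith) h4
        rw [Real.log_div (by linarith) (by norm_num)] at h7
        linarith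
      have hlllN : Real.log (Real.log (Real.log N)) ≤ Real.log (Real.log (Real.log x)) :=
        Real.log_le_log (by linarith) hllN
      have h5 := hx0 N h3x (2 * L) (by linarith) (by
        have h8 : C * (2 * L) ≤ Real.log (Real.log x) / 2 := by
          have h9 : C * (2 * (1 / (4 * C) * Real.log (Real.log x)))
              = Real.log (Real.log x) / 2 := by
            field_simp
            ring
          rw [← h9]
          gcongr
        linarith)
      refine ⟨_, ?_, h5⟩
      intro m hm1 hm2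
      refine Finset.mem_filter.2 ⟨hm1, ?_⟩
      rw [mem_Ioc] at hm1
      intro t ht
      by_contra hcon
      apply hm2
      push Not at hcon
      obtain ⟨n, hn1, hn2, hn3⟩ := gap_of_free m (m + t) ⌈2 * L * Real.log N⌉₊ (by omega)
        (by omega) (fun p hp hpt => hcon p hp hpt)
      refine ⟨n, hn1, ?_, ?_⟩
      · have h10 : (Nat.nth Nat.Prime n : ℝ) ≤ m + t := by exact_mod_cast hn2
        have h11 : C * (2 * L) = 2 * C * L := by ring
        rw [h11] at ht
        linarith
      · refine le_trans ?_ hn3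
        refine le_trans ?_ (Nat.le_ceil _)
        nlinarith
    · have h13 : x / 2 ^ I ≤ ε / 4 * x := by
        have : x / 2 ^ I = (1 / 2) ^ I * x := by
          rw [one_div, inv_pow]; ring
        rw [this]
        exact mul_le_mul_of_nonneg_right hI.le (by linarith)
      have h14 : 1 ≤ ε / 4 * x := by
        rw [div_le_iff₀ hε] at hxε
        linarith
      nlinarith
  exact eventually_atTop.1 key

end Pool.Agent.Helper88.PA
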