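import Pool.Agent.Helper88.PP.Main

/-! # From `(x/2, x]` to all integers up to `x` -/

set_option autoImplicit false

open Finset Filter Topology

open scoped Classical

namespace Pool.Agent.Helper88.PA

theorem cover_step (G : ℕ → Prop) (N : ℕ) : ∀ I : ℕ,
    ((Icc 0 N).filter G).card ≤ N / 2 ^ I + 1 +
      ∑ i ∈ range I, ((Ioc (N / 2 ^ i / 2) (N / 2 ^ i)).filter G).card := by
  have key : ∀ I : ℕ, ((Icc 0 N).filter G).card ≤ ((Icc 0 (N / 2 ^ I)).filter G).card +
      ∑ i ∈ range I, ((Ioc (N / 2 ^ i / 2) (N / 2 ^ i)).filter G).card := by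
    intro I
    induction I with
    | zero => simp
    | succ I ih =>
      rw [Finset.sum_range_succ]
      have h1 : N / 2 ^ (I + 1) = N / 2 ^ I / 2 := by
        rw [pow_succ, Nat.div_div_eq_div_mul]
      have h2 : ((Icc 0 (N / 2 ^ I)).filter G).card ≤ ((Icc 0 (N / 2 ^ (I + 1))).filter G).card +
          ((Ioc (N / 2 ^ I / 2) (N / 2 ^ I)).filter G).card := by
        refine (Finset.card_le_card ?_).trans (Finset.card_union_le _ _)
        intro m hm
        rw [mem_filter, mem_Icc] at hm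
        rw [mem_union, mem_filter, mem_filter, mem_Icc, mem_Ioc, h1]
        rcases Nat.lt_or_ge (N / 2 ^ I / 2) m with h | h
        · exact Or.inr ⟨⟨h, hm.1.2⟩, hm.2⟩
        · exact Or.inl ⟨⟨Nat.zero_le _, h⟩, hm.2⟩
      omega
  intro I
  refine (key I).trans ?_
  have h3 : ((Icc 0 (N / 2 ^ I)).filter G).card ≤ N / 2 ^ I + 1 := by
    refine (Finset.card_filter_le _ _).trans ?_
    rw [Nat.card_Icc, Nat.sub_zero]
  exact Nat.add_le_add_right h3 _

theorem cover (G : ℕ → Prop) (N I : ℕ) (η : ℝ) (hη : 0 ≤ η)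
    (h : ∀ i < I, (((Ioc (N / 2 ^ i / 2) (N / 2 ^ i)).filter G).card : ℝ)
      ≤ η * ((N / 2 ^ i : ℕ) : ℝ)) :
    (((Icc 0 N).filter G).card : ℝ) ≤ N / 2 ^ I + 1 + 2 * η * N := by
  have h1 := cover_step G N I
  have h2 : (((Icc 0 N).filter G).card : ℝ) ≤ ((N / 2 ^ I + 1 +
      ∑ i ∈ range I, ((Ioc (N / 2 ^ i / 2) (N / 2 ^ i)).filter G).card : ℕ) : ℝ) := by
    exact_mod_cast h1
  push_cast at h2
  have h3 : ((N / 2 ^ I : ℕ) : ℝ) ≤ (N : ℝ) / 2 ^ I := by
    have := Nat.cast_div_le (α := ℝ) (m := N) (n := 2 ^ I)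
    push_cast at this
    exact this
  have h4 : ∑ i ∈ range I, (((Ioc (N / 2 ^ i / 2) (N / 2 ^ i)).filter G).card : ℝ)
      ≤ ∑ i ∈ range I, η * ((N : ℝ) * (1 / 2) ^ i) := by
    apply Finset.sum_le_sum
    intro i hi
    refine (h i (mem_range.1 hi)).trans ?_
    apply mul_le_mul_of_nonneg_left _ hη
    have := Nat.cast_div_le (α := ℝ) (m := N) (n := 2 ^ i)
    push_cast at this
    refine this.trans (le_of_eq ?_)
    rw [one_div, inv_pow, div_eq_mul_inv]
  have h5 : ∑ i ∈ range I, η * ((N : ℝ) * (1 / 2) ^ i) ≤ 2 * η * N := by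
    rw [← Finset.mul_sum, ← Finset.mul_sum]
    have h6 : ∑ i ∈ range I, ((1 : ℝ) / 2) ^ i ≤ 2 := by
      rw [geom_sum_eq (by norm_num)]
      have : (0 : ℝ) < (1 / 2) ^ I := by positivity
      rw [div_le_iff_of_neg (by norm_num)]
      linarith
    have h7 : (0 : ℝ) ≤ η * N := by positivity
    nlinarith
  linarith

end Pool.Agent.Helper88.PA
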