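import Pool.Agent.Helper88.PA.AEG
import Pool.Agent.Helper88.PP.Main
import Pool.Agent.Helper88.GM.MainUF
import Pool.Agent.Helper11.GM.MO

/-! # Almost all integers are close to a large gap between primes: the assembly -/

namespace Pool.Agent.Helper88.PA

open Pool.Agent.Helper88.PP in
theorem moPP : StmtMO := by
  have ma := Pool.Agent.Helper24.PP.ma
  have h1 : StmtTS := Pool.Agent.Helper3.PP.ts Pool.Agent.Helper74.PP.tl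
    (Pool.Agent.Helper93.PP.tr Pool.Agent.Helper42.PP.tre) ma (Pool.Agent.Helper69.PP.co ma)
  exact mo Pool.Agent.Helper74.PP.tl (Pool.Agent.Helper61.PP.s1 h1)
    (Pool.Agent.Helper26.PP.s2 Pool.Agent.Helper11.PP.pw (Pool.Agent.Helper37.PP.gt h1)
      Pool.Agent.Helper86.PP.ra ma)
    (Pool.Agent.Helper64.PP.s3 h1)
    (Pool.Agent.Helper50.PP.s4 Pool.Agent.Helper74.PP.tl (Pool.Agent.Helper69.PP.co ma))
    (Pool.Agent.Helper51.PP.rh ma) Pool.Agent.Helper37.PP.hb Pool.Agent.Helper37.PP.mu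
    Pool.Agent.Helper39.PP.ch

theorem main1 : (∀ L ε : ℝ, 0 < ε → ∃ T X : ℝ, ∀ x : ℝ, X ≤ x →
    ({m : ℕ | (m : ℝ) ≤ x ∧ ¬ ∃ n : ℕ, m < Nat.nth Nat.Prime (n + 1) ∧
      (Nat.nth Nat.Prime n : ℝ) ≤ m + T * Real.log x ∧
      L * Real.log x ≤ (Nat.nth Nat.Prime (n + 1) : ℝ) - Nat.nth Nat.Prime n - 1}.ncard : ℝ)
      ≤ ε * x) ∧
    (∀ L : ℝ, ∃ c : ℝ, 0 < c ∧ ∃ X : ℝ, ∀ x : ℝ, X ≤ x →
    c * (x / Real.log x) ≤ ({n : ℕ | (Nat.nth Nat.Prime n : ℝ) ≤ x ∧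
      L * Real.log x ≤ (Nat.nth Nat.Prime (n + 1) : ℝ) - Nat.nth Nat.Prime n - 1}.ncard : ℝ)) :=
  ⟨ae moPP, Pool.Agent.Helper88.PP.main⟩

theorem main2 : (∀ ε : ℝ, 0 < ε → ∃ c C : ℝ, 0 < c ∧ ∃ X : ℝ,
    ∀ x : ℝ, X ≤ x → ∀ L : ℝ, Real.log (Real.log (Real.log x)) ≤ L →
    L ≤ c * Real.log (Real.log x) →
    ({m : ℕ | (m : ℝ) ≤ x ∧ ¬ ∃ n : ℕ, m < Nat.nth Nat.Prime (n + 1) ∧
      (Nat.nth Nat.Prime n : ℝ) ≤ m + Real.exp (Real.exp (C * L)) ∧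
      L * Real.log x ≤ (Nat.nth Nat.Prime (n + 1) : ℝ) - Nat.nth Nat.Prime n - 1}.ncard : ℝ)
      ≤ ε * x) ∧
    (∃ c C : ℝ, 0 < c ∧ ∃ X : ℝ, ∀ x : ℝ, X ≤ x → ∀ L : ℝ,
    Real.log (Real.log (Real.log x)) ≤ L → L ≤ c * Real.log (Real.log x) →
    x * Real.exp (-Real.exp (C * L))
      ≤ ({n : ℕ | (Nat.nth Nat.Prime n : ℝ) ≤ x ∧
          L * Real.log x ≤ (Nat.nth Nat.Prime (n + 1) : ℝ) - Nat.nth Nat.Prime n - 1}.ncard : ℝ)) :=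
  ⟨aeg (Pool.Agent.Helper11.GM.mo Pool.Agent.Helper88.GM.mainKB),
    Pool.Agent.Helper88.GM.mainUFA Pool.Agent.Helper11.GM.mo⟩

end Pool.Agent.Helper88.PA
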