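import Pool.Agent.Helper88.PA.Cover

/-! # From `(x/2, x]` to all integers up to `x`, for real `x` -/

set_option autoImplicit false

open Finset Filter Topology

open scoped Classical

namespace Pool.Agent.Helper88.PA

theorem coverSet (G : ℕ → Prop) (x : ℝ) (hx : 0 ≤ x) (I : ℕ) (η : ℝ) (hη : 0 ≤ η)
    (h : ∀ i < I, (((Ioc (⌊x⌋₊ / 2 ^ i / 2) (⌊x⌋₊ / 2 ^ i)).filter G).card : ℝ)
      ≤ η * ((⌊x⌋₊ / 2 ^ i : ℕ) : ℝ)) :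
    ({m : ℕ | (m : ℝ) ≤ x ∧ G m}.ncard : ℝ) ≤ x / 2 ^ I + 1 + 2 * η * x := by
  have h1 : {m : ℕ | (m : ℝ) ≤ x ∧ G m} = (((Icc 0 ⌊x⌋₊).filter G : Finset ℕ) : Set ℕ) := by
    ext m
    rw [Set.mem_setOf_eq, Finset.mem_coe, mem_filter, mem_Icc, Nat.le_floor_iff hx]
    constructor
    · rintro ⟨h1, h2⟩
      exact ⟨⟨Nat.zero_le _, h1⟩, h2⟩
    · rintro ⟨⟨_, h1⟩, h2⟩
      exact ⟨h1, h2⟩
  rw [h1, Set.ncard_coe_finset]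
  have h2 := cover G ⌊x⌋₊ I η hη h
  have h3 : ((⌊x⌋₊ : ℕ) : ℝ) ≤ x := Nat.floor_le hx
  have h4 : ((⌊x⌋₊ : ℕ) : ℝ) / 2 ^ I ≤ x / 2 ^ I := by gcongr
  have h5 : 2 * η * ((⌊x⌋₊ : ℕ) : ℝ) ≤ 2 * η * x := by
    apply mul_le_mul_of_nonneg_left h3; positivity
  linarith

theorem coverSet' (G : ℕ → Prop) (x : ℝ) (hx : 0 ≤ x) (I : ℕ) (η : ℝ) (hη : 0 ≤ η)
    (h : ∀ i < I, ∃ B : Finset ℕ,
      (∀ m ∈ Ioc (⌊x⌋₊ / 2 ^ i / 2) (⌊x⌋₊ / 2 ^ i), G m → m ∈ B) ∧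
      (B.card : ℝ) ≤ η * ((⌊x⌋₊ / 2 ^ i : ℕ) : ℝ)) :
    ({m : ℕ | (m : ℝ) ≤ x ∧ G m}.ncard : ℝ) ≤ x / 2 ^ I + 1 + 2 * η * x := by
  apply coverSet G x hx I η hη
  intro i hi
  obtain ⟨B, hB1, hB2⟩ := h i hi
  refine le_trans ?_ hB2
  refine Nat.cast_le.2 (Finset.card_le_card ?_)
  intro m hm
  rw [mem_filter] at hm
  exact hB1 m hm.1 hm.2

/-- `N / 2^i` for `i ≤ I` is at least `x / 2^(I+1)` -/
theorem div_pow_ge (x : ℝ) (I i : ℕ) (hi : i ≤ I) (hx : 2 ^ (I + 2) ≤ x) :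
    x / 2 ^ (I + 1) ≤ ((⌊x⌋₊ / 2 ^ i : ℕ) : ℝ) := by
  have h0 : (0 : ℝ) < 2 ^ I := by positivity
  have hx0 : (0 : ℝ) ≤ x := le_trans (by positivity) hx
  have h1 : ⌊x⌋₊ / 2 ^ I ≤ ⌊x⌋₊ / 2 ^ i :=
    Nat.div_le_div_left (Nat.pow_le_pow_right (by norm_num) hi) (by positivity)
  have h2 : ((⌊x⌋₊ / 2 ^ I : ℕ) : ℝ) ≤ ((⌊x⌋₊ / 2 ^ i : ℕ) : ℝ) := by exact_mod_cast h1
  refine le_trans ?_ h2
  have h3 : x - 1 < (⌊x⌋₊ : ℝ) := Nat.sub_one_lt_floor x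
  have h4 : (⌊x⌋₊ : ℝ) < 2 ^ I * (((⌊x⌋₊ / 2 ^ I : ℕ) : ℝ) + 1) := by
    have : ⌊x⌋₊ < 2 ^ I * (⌊x⌋₊ / 2 ^ I + 1) := by
      have := Nat.lt_mul_div_succ ⌊x⌋₊ (show 0 < 2 ^ I by positivity)
      simpa using this
    exact_mod_cast this
  have h5 : (1 : ℝ) ≤ 2 ^ I := one_le_pow₀ (by norm_num)
  rw [div_le_iff₀ (by positivity)]
  have h6 : (2 : ℝ) ^ (I + 1) = 2 * 2 ^ I := by rw [pow_succ]; ring
  have h7 : (2 : ℝ) ^ (I + 2) = 4 * 2 ^ I := by rw [pow_add]; ring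
  rw [h7] at hx
  rw [h6]
  nlinarith

theorem log_ge_half (I : ℕ) : ∀ᶠ x : ℝ in atTop, ∀ i ≤ I,
    Real.log x / 2 ≤ Real.log ((⌊x⌋₊ / 2 ^ i : ℕ) : ℝ) := by
  filter_upwards [eventually_ge_atTop ((2 : ℝ) ^ (I + 2)),
    Real.tendsto_log_atTop.eventually_ge_atTop (2 * Real.log (2 ^ (I + 1)))] with x hx hl i hi
  have h0 := div_pow_ge x I i hi hx
  have hx0 : (0 : ℝ) < x := lt_of_lt_of_le (by positivity) hx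
  have h1 : Real.log (x / 2 ^ (I + 1)) ≤ Real.log ((⌊x⌋₊ / 2 ^ i : ℕ) : ℝ) :=
    Real.log_le_log (by positivity) h0
  rw [Real.log_div hx0.ne' (by positivity)] at h1
  linarith

theorem log_le (x : ℝ) (hx : 1 ≤ x) (i : ℕ) :
    Real.log ((⌊x⌋₊ / 2 ^ i : ℕ) : ℝ) ≤ Real.log x := by
  rcases Nat.eq_zero_or_pos (⌊x⌋₊ / 2 ^ i) with h | h
  · rw [h]; simp [Real.log_nonneg hx]
  · apply Real.log_le_log (by exact_mod_cast h)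
    have h1 : ((⌊x⌋₊ / 2 ^ i : ℕ) : ℝ) ≤ (⌊x⌋₊ : ℝ) := by exact_mod_cast Nat.div_le_self _ _
    exact h1.trans (Nat.floor_le (by linarith))

theorem tend_div (I : ℕ) (x0 : ℕ) : ∀ᶠ x : ℝ in atTop, ∀ i ≤ I, x0 ≤ ⌊x⌋₊ / 2 ^ i := by
  filter_upwards [eventually_ge_atTop ((2 : ℝ) ^ (I + 2)),
    eventually_ge_atTop ((x0 : ℝ) * 2 ^ (I + 1))] with x hx hl i hi
  have h0 := div_pow_ge x I i hi hx
  have h1 : (x0 : ℝ) ≤ x / 2 ^ (I + 1) := by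
    rw [le_div_iff₀ (by positivity)]; exact hl
  exact_mod_cast h1.trans h0

end Pool.Agent.Helper88.PA
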